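import Mathlib
import Pool.Agent.Lib.MP_dbaee1_an.Stmt
import Pool.Agent.Lib.MP_dbaee1_an.Norming
import Pool.Agent.Lib.MP_dbaee1_an.Unique
import Pool.Agent.Lib.MP_dbaee1_an.Transfer

/-!
# Discrete crossed products with a unique pseudo-expectation are normed by the coefficient algebra

Let `α` be an action of a discrete group `G` on a unital C*-algebra `A`. If the inclusion
`A ⊆ A ⋊_r G` has a unique pseudo-expectation (with values in the injective envelope of `A`), then
`A` norms `A ⋊_r G`. This answers Q1 affirmatively, in full generality: there is no separability,
countability, simplicity or faithfulness assumption.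

Sketch of the proof.

* Uniqueness of the pseudo-expectation implies that the action is free in the sense of Kallman
  (`free_of_unique`): if `z ≠ 0` and `z a = α_g(a) z` for all `a`, with `g ≠ 1`, then
  `w = z* u_g` commutes with `A`, and the completely positive maps
  `x ↦ E(s* x s) + k E(x) k` with `s = (1 + λ w)/2`, `k² = 1 - E(s* s)`, `|λ| = 1`, are
  conditional expectations onto `A` which cannot all agree with the canonical one `E`.
* A free action gives a norming inclusion (`norms_of_free`). Cut down to a finite set `F` of group
  elements. Call an irreducible representation `π` of `A` good if for every `s` in `F` the number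
  of `t` in `F` with `π ∘ α_t⁻¹` equivalent to `π ∘ α_s⁻¹` is at most the dimension of `π`. For a
  free action the good irreducible representations separate the points of `A` (`exists_good`):
  otherwise there is a nonzero ideal all of whose irreducible representations have one dimension
  `d < |F|` and satisfy one coincidence `π ∘ α_s⁻¹ ≃ π ∘ α_t⁻¹`, `s ≠ t`; an explicit element of
  that ideal (`zElt`), which acts in each of these representations as a scalar multiple of the
  implementing unitary, then contradicts freeness. For a good
  representation the vectors `(ξ_s)` can be moved (`good_transitivity`, a form of Kadison's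
  transitivity theorem for the twists of `π` together with a Kaplansky type bound) by rows and
  columns over `A` of norm at most one so as to reach the norm of any matrix over the cut down
  crossed product.
-/

open scoped ComplexOrder InnerProductSpace ENNReal CStarAlgebra

namespace Pool.Agent.Results.MP_dbaee1_an.UniquePseudoExpectationNorms

open Pool.Agent.MP_dbaee1_an

universe uA uG uH uD uK uI

/-- Let `α` be an action of the discrete group `G` on the unital C*-algebra `A`, let `D`, with the
inclusion `ι` of `A` and the unitaries `u g`, be the reduced crossed product `A ⋊_r G`, and let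
`(I, j)` be the injective envelope of `A`. If there is a unique pseudo-expectation for the inclusion
of `A` in `D`, then `A` norms `D`. -/
theorem result {A : Type uA} [CStarAlgebra A] [PartialOrder A] [StarOrderedRing A]
    {G : Type uG} [Group G] (α : G →* (A ≃⋆ₐ[ℂ] A))
    {H : Type uH} [NormedAddCommGroup H] [InnerProductSpace ℂ H] [CompleteSpace H]
    (σ : A →⋆ₐ[ℂ] (H →L[ℂ] H))
    {D : Type uD} [CStarAlgebra D] [PartialOrder D] [StarOrderedRing D]
    (ι : A →⋆ₐ[ℂ] D) (u : G → D)
    {K : Type uK} [NormedAddCommGroup K] [InnerProductSpace ℂ K] [CompleteSpace K]
    (V : G → H →ₗᵢ[ℂ] K) (ρ : D →⋆ₐ[ℂ] (K →L[ℂ] K))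
    (hD : IsReducedCrossedProduct α σ ι u V ρ)
    {I : Type uI} [CStarAlgebra I] [PartialOrder I] [StarOrderedRing I]
    (j : A →⋆ₐ[ℂ] I) (hj : IsInjectiveEnvelope j)
    (huniq : ∃! θ : CompletelyPositiveMap D I, IsPseudoExpectation ι j θ) :
    Norms ι := by
  obtain ⟨e, he⟩ := exists_equiv hD
  exact norms_transfer e he (norms_of_free hD.faithful (free_of_unique hD.faithful j hj.1
    (unique_transfer e he j (fun _ _ h₁ h₂ => huniq.unique h₁ h₂))))

end Pool.Agent.Results.MP_dbaee1_an.UniquePseudoExpectationNorms
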